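import Pool.Agent.Helper61.RC.Base2
import Pool.Agent.Helper58.RC.Minimal

/-!
RC-22: orthogonal bumps.
-/

open scoped ENNReal NNReal Topology CStarAlgebra ComplexOrder
open Filter

noncomputable section

namespace Pool.Agent.Helper61.RC

section
variable {X : Type*} [MetricSpace X] [CompactSpace X]

-- RC-22
theorem exists_bumps [Infinite X] (h : X ≃ₜ X) (hmin : MinimalHomeo h) (ω : C(X, ℝ))
    (hω0 : ∀ x, 0 ≤ ω x) (hω : ∃ x, 0 < ω x) (N : ℕ) :
    ∃ ρ : Fin N → C(X, ℝ), (∀ i x, 0 ≤ ρ i x) ∧ (∀ i, ∃ x, 0 < ρ i x) ∧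
      (∀ i j, i ≠ j → ∀ x, ρ i x * ρ j x = 0) ∧ ∃ C : ℝ, 0 < C ∧ ∀ x, ∑ i, ρ i x ≤ C * ω x := by
  obtain ⟨x₀, hx₀⟩ := hω
  set c : ℝ := ω x₀ / 2 with hc
  have hc0 : 0 < c := by rw [hc]; linarith
  set O : Set X := {x | c < ω x} with hO
  have hOo : IsOpen O := isOpen_lt continuous_const ω.continuous
  have hOinf : O.Infinite := open_infinite h hmin O hOo ⟨x₀, by
    show c < ω x₀
    rw [hc]
    linarith⟩
  -- distinct points
  let f : ℕ ↪ O := hOinf.natEmbedding
  let y : Fin N → X := fun i => (f i : X)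
  have hyO : ∀ i, y i ∈ O := fun i => (f i).2
  have hyinj : ∀ i j, i ≠ j → y i ≠ y j := by
    intro i j hij h'
    apply hij
    have h1 : f i = f j := Subtype.ext h'
    exact Fin.ext (f.injective h1)
  -- a common radius
  have hr1 : ∀ i, ∃ r : ℝ, 0 < r ∧ Metric.ball (y i) r ⊆ O := fun i => by
    obtain ⟨r, hr, hsub⟩ := Metric.isOpen_iff.1 hOo (y i) (hyO i)
    exact ⟨r, hr, hsub⟩
  choose r₁ hr₁ hball using hr1
  obtain ⟨r, hr0, hra, hrb⟩ : ∃ r : ℝ, 0 < r ∧ (∀ i, r ≤ r₁ i) ∧
      ∀ i j, i ≠ j → 2 * r ≤ dist (y i) (y j) := by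
    set S : Finset ℝ := (Finset.univ.image r₁) ∪
      ((Finset.univ.filter fun p : Fin N × Fin N => p.1 ≠ p.2).image
        fun p => dist (y p.1) (y p.2) / 2) ∪ {1} with hS
    have hSne : S.Nonempty := ⟨1, by simp [hS]⟩
    refine ⟨S.min' hSne, ?_, ?_, ?_⟩
    · rw [Finset.lt_min'_iff]
      intro t ht
      rw [hS, Finset.mem_union, Finset.mem_union, Finset.mem_image, Finset.mem_image,
        Finset.mem_singleton] at ht
      rcases ht with (⟨i, -, rfl⟩ | ⟨p, hp, rfl⟩) | rfl
      · exact hr₁ i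
      · have := dist_pos.2 (hyinj p.1 p.2 (Finset.mem_filter.1 hp).2)
        linarith
      · exact one_pos
    · intro i
      apply Finset.min'_le
      rw [hS, Finset.mem_union, Finset.mem_union]
      exact Or.inl (Or.inl (Finset.mem_image_of_mem _ (Finset.mem_univ i)))
    · intro i j hij
      have h1 : S.min' hSne ≤ dist (y i) (y j) / 2 := by
        apply Finset.min'_le
        rw [hS, Finset.mem_union, Finset.mem_union]
        exact Or.inl (Or.inr (Finset.mem_image.2 ⟨(i, j), by simp [hij], rfl⟩))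
      linarith
  let ρ : Fin N → C(X, ℝ) := fun i =>
    ⟨fun x => max 0 (r - dist x (y i)), by fun_prop⟩
  have hρ : ∀ i x, ρ i x = max 0 (r - dist x (y i)) := fun i x => rfl
  refine ⟨ρ, fun i x => le_max_left _ _, fun i => ⟨y i, ?_⟩, ?_, N * r / c + 1, ?_, ?_⟩
  · rw [hρ, dist_self, sub_zero]
    exact lt_max_of_lt_right hr0
  · intro i j hij x
    by_contra hne
    have h1 : ρ i x ≠ 0 := left_ne_zero_of_mul hne
    have h2 : ρ j x ≠ 0 := right_ne_zero_of_mul hne
    have h3 : dist x (y i) < r := by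
      by_contra hlt
      apply h1
      rw [hρ]
      exact max_eq_left (by linarith)
    have h4 : dist x (y j) < r := by
      by_contra hlt
      apply h2
      rw [hρ]
      exact max_eq_left (by linarith)
    have h5 := dist_triangle_left (y i) (y j) x
    have h6 := hrb i j hij
    linarith
  · positivity
  · intro x
    by_cases hx : x ∈ O
    · have h1 : ∀ i, ρ i x ≤ r := fun i => by
        rw [hρ]
        exact max_le hr0.le (by linarith [dist_nonneg (x := x) (y := y i)])
      have h2 : ∑ i, ρ i x ≤ N * r := by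
        calc ∑ i, ρ i x ≤ ∑ _i : Fin N, r := Finset.sum_le_sum fun i _ => h1 i
          _ = N * r := by rw [Finset.sum_const, Finset.card_univ, Fintype.card_fin, nsmul_eq_mul]
      have h3 : c < ω x := hx
      have h4 : (N : ℝ) * r ≤ N * r / c * ω x := by
        rw [div_mul_eq_mul_div, le_div_iff₀ hc0]
        have : 0 ≤ (N : ℝ) * r := by positivity
        nlinarith
      have h5 := hω0 x
      linarith
    · have h1 : ∀ i, ρ i x = 0 := by
        intro i
        rw [hρ]
        apply max_eq_left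
        by_contra hlt
        push Not at hlt
        apply hx
        apply hball i
        rw [Metric.mem_ball]
        linarith [hra i]
      rw [Finset.sum_congr rfl fun i _ => h1 i, Finset.sum_const_zero]
      have h5 := hω0 x
      positivity

end

end Pool.Agent.Helper61.RC
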