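import Pool.Agent.Helper61.RC.Base2

/-!
RC-25: cut-off functions along orbits.
-/

open scoped ENNReal NNReal Topology CStarAlgebra ComplexOrder
open Filter

noncomputable section

namespace Pool.Agent.Helper61.RC

section
variable {X : Type*} [MetricSpace X] [CompactSpace X]

/-- weights -/
def cutRho (R R₀ : ℕ) (j : ℤ) : ℝ := min 1 (max 0 (((R : ℝ) + R₀ - |(j : ℝ)|) / R₀))

theorem cutRho_nonneg (R R₀ : ℕ) (j : ℤ) : 0 ≤ cutRho R R₀ j :=
  le_min zero_le_one (le_max_left _ _)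

theorem cutRho_le_one (R R₀ : ℕ) (j : ℤ) : cutRho R R₀ j ≤ 1 := min_le_left _ _

theorem cutRho_eq_one (R R₀ : ℕ) (hR₀ : 1 ≤ R₀) (j : ℤ) (hj : |j| ≤ R) : cutRho R R₀ j = 1 := by
  have h0 : (0 : ℝ) < R₀ := by exact_mod_cast hR₀
  have h1 : |(j : ℝ)| ≤ R := by exact_mod_cast hj
  rw [cutRho]
  apply min_eq_left
  refine le_max_of_le_right ?_
  rw [le_div_iff₀ h0]
  linarith

theorem cutRho_eq_zero (R R₀ : ℕ) (j : ℤ) (hj : ((R + R₀ : ℕ) : ℤ) ≤ |j|) :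
    cutRho R R₀ j = 0 := by
  have h1 : ((R : ℝ) + R₀) ≤ |(j : ℝ)| := by exact_mod_cast hj
  rw [cutRho]
  have h2 : ((R : ℝ) + R₀ - |(j : ℝ)|) / R₀ ≤ 0 :=
    div_nonpos_of_nonpos_of_nonneg (by linarith) (Nat.cast_nonneg _)
  rw [max_eq_left h2]
  exact min_eq_right zero_le_one

theorem cutRho_lip (R R₀ : ℕ) (hR₀ : 1 ≤ R₀) (i j : ℤ) (hij : |i - j| ≤ 1) :
    cutRho R R₀ i ≤ cutRho R R₀ j + 1 / (R₀ : ℝ) := by
  have h0 : (0 : ℝ) < R₀ := by exact_mod_cast hR₀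
  have h1 : |(i : ℝ) - j| ≤ 1 := by exact_mod_cast hij
  have h2 : |(j : ℝ)| ≤ |(i : ℝ)| + 1 := by
    have h3 := abs_sub_abs_le_abs_sub (j : ℝ) i
    rw [abs_sub_comm] at h3
    linarith
  rw [cutRho, cutRho]
  have h4 : ((R : ℝ) + R₀ - |(i : ℝ)|) / R₀ ≤ ((R : ℝ) + R₀ - |(j : ℝ)|) / R₀ + 1 / (R₀ : ℝ) := by
    rw [← add_div]
    apply div_le_div_of_nonneg_right _ h0.le
    linarith
  have h5 : (0 : ℝ) ≤ 1 / (R₀ : ℝ) := by positivity
  have h6 : max 0 (((R : ℝ) + R₀ - |(i : ℝ)|) / R₀) ≤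
      max 0 (((R : ℝ) + R₀ - |(j : ℝ)|) / R₀) + 1 / (R₀ : ℝ) := by
    apply max_le
    · have := le_max_left 0 (((R : ℝ) + R₀ - |(j : ℝ)|) / R₀)
      linarith
    · have := le_max_right 0 (((R : ℝ) + R₀ - |(j : ℝ)|) / R₀)
      linarith
  rcases le_total 1 (max 0 (((R : ℝ) + R₀ - |(j : ℝ)|) / R₀)) with h | h
  · rw [min_eq_left h]
    have := min_le_left 1 (max 0 (((R : ℝ) + R₀ - |(i : ℝ)|) / R₀))
    linarith
  · rw [min_eq_right h]
    exact (min_le_right _ _).trans h6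

-- RC-25
theorem exists_cutoff (h : X ≃ₜ X) (w : C(X, ℝ)) (hw : ∀ x, 0 ≤ w x ∧ w x ≤ 1) (R R₀ : ℕ)
    (hR₀ : 1 ≤ R₀) : ∃ g : C(X, ℝ), (∀ x, 0 ≤ g x ∧ g x ≤ 1) ∧
      (∀ x, |g (h x) - g x| ≤ 1 / (R₀ : ℝ)) ∧
      (∀ x, ∀ j : ℤ, |j| ≤ R → w ((h ^ j) x) = 1 → g x = 0) ∧
      (∀ x, 1 - g x ≤ ∑ j ∈ Finset.Icc (-((R + R₀ : ℕ) : ℤ)) ((R + R₀ : ℕ) : ℤ),
        w ((h ^ j) x)) := by
  set I : Finset ℤ := Finset.Icc (-((R + R₀ : ℕ) : ℤ)) ((R + R₀ : ℕ) : ℤ) with hI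
  have hIne : I.Nonempty := ⟨0, by rw [hI, Finset.mem_Icc]; constructor <;> omega⟩
  have hmemI : ∀ j : ℤ, |j| ≤ ((R + R₀ : ℕ) : ℤ) → j ∈ I := by
    intro j hj
    rw [hI, Finset.mem_Icc]
    exact abs_le.1 hj
  have hI' : ∀ j ∈ I, |j| ≤ ((R + R₀ : ℕ) : ℤ) := by
    intro j hj
    rw [hI, Finset.mem_Icc] at hj
    exact abs_le.2 hj
  let F : ℤ → C(X, ℝ) := fun j => cutRho R R₀ j • w.comp ((h ^ j : X ≃ₜ X) : C(X, X))
  have hF : ∀ j x, F j x = cutRho R R₀ j * w ((h ^ j) x) := fun j x => rfl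
  let S : C(X, ℝ) := I.sup' hIne F
  have hS : ∀ x, S x = I.sup' hIne (fun j => F j x) := fun x => ContinuousMap.sup'_apply _ _ _
  have hFle : ∀ j ∈ I, ∀ x, F j x ≤ S x := by
    intro j hj x
    rw [hS]
    exact Finset.le_sup' (fun j => F j x) hj
  have hSle : ∀ x (c : ℝ), (∀ j ∈ I, F j x ≤ c) → S x ≤ c := by
    intro x c hc
    rw [hS]
    exact Finset.sup'_le hIne _ hc
  have hF0 : ∀ j x, 0 ≤ F j x := fun j x => mul_nonneg (cutRho_nonneg _ _ _) (hw _).1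
  have hF1 : ∀ j x, F j x ≤ 1 := fun j x => by
    rw [hF]
    exact mul_le_one₀ (cutRho_le_one _ _ _) (hw _).1 (hw _).2
  have hS0 : ∀ x, 0 ≤ S x := fun x => by
    obtain ⟨j, hj⟩ := hIne
    exact (hF0 j x).trans (hFle j hj x)
  have hS1 : ∀ x, S x ≤ 1 := fun x => hSle x 1 fun j _ => hF1 j x
  have hinv : (0 : ℝ) ≤ 1 / (R₀ : ℝ) := by positivity
  have hpow : ∀ (j : ℤ) (x : X), (h ^ j) (h x) = (h ^ (j + 1)) x := by
    intro j x
    rw [zpow_add, zpow_one]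
    rfl
  -- the two inequalities
  have hup : ∀ x, S (h x) ≤ S x + 1 / (R₀ : ℝ) := by
    intro x
    apply hSle
    intro j hj
    rw [hF, hpow]
    by_cases hj' : |j + 1| ≤ ((R + R₀ : ℕ) : ℤ)
    · have h1 := hFle (j + 1) (hmemI _ hj') x
      rw [hF] at h1
      have h2 := cutRho_lip R R₀ hR₀ j (j + 1) (by simp)
      have h3 := hw ((h ^ (j + 1)) x)
      nlinarith
    · have h1 : cutRho R R₀ j = 0 := by
        apply cutRho_eq_zero
        have h2 := hI' j hj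
        have h3 : |j + 1| ≤ |j| + 1 := by
          have := abs_add_le j 1
          simpa using this
        omega
      rw [h1, zero_mul]
      have := hS0 x
      linarith
  have hdown : ∀ x, S x ≤ S (h x) + 1 / (R₀ : ℝ) := by
    intro x
    apply hSle
    intro j hj
    rw [hF]
    by_cases hj' : |j - 1| ≤ ((R + R₀ : ℕ) : ℤ)
    · have h1 := hFle (j - 1) (hmemI _ hj') (h x)
      rw [hF, hpow, sub_add_cancel] at h1
      have h2 := cutRho_lip R R₀ hR₀ j (j - 1) (by simp)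
      have h3 := hw ((h ^ j) x)
      nlinarith
    · have h1 : cutRho R R₀ j = 0 := by
        apply cutRho_eq_zero
        have h2 := hI' j hj
        have h3 : |j - 1| ≤ |j| + 1 := by
          have := abs_sub j 1
          simpa using this
        omega
      rw [h1, zero_mul]
      have := hS0 (h x)
      linarith
  refine ⟨1 - S, ?_, ?_, ?_, ?_⟩
  · intro x
    show 0 ≤ 1 - S x ∧ 1 - S x ≤ 1
    constructor
    · linarith [hS1 x]
    · linarith [hS0 x]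
  · intro x
    show |(1 - S (h x)) - (1 - S x)| ≤ _
    rw [abs_le]
    constructor
    · linarith [hup x]
    · linarith [hdown x]
  · intro x j hj hwj
    show 1 - S x = 0
    have h1 : j ∈ I := hmemI j (hj.trans (by push_cast; omega))
    have h2 := hFle j h1 x
    rw [hF, cutRho_eq_one R R₀ hR₀ j hj, hwj, one_mul] at h2
    linarith [hS1 x]
  · intro x
    show 1 - (1 - S x) ≤ _
    rw [sub_sub_cancel]
    apply hSle
    intro j hj
    have h1 : F j x ≤ w ((h ^ j) x) := by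
      rw [hF]
      exact mul_le_of_le_one_left (hw _).1 (cutRho_le_one _ _ _)
    exact h1.trans (Finset.single_le_sum (f := fun j => w ((h ^ j) x))
      (fun j _ => (hw _).1) hj)

end

end Pool.Agent.Helper61.RC
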