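import Pool.Agent.Helper61.RC.Base2

/-!
RC-24: periodic Lipschitz functions on the line.
-/

open scoped ENNReal NNReal Topology CStarAlgebra ComplexOrder
open Filter

noncomputable section

namespace Pool.Agent.Helper61.RC

/-- the complement of the union of the intervals `(m, m + 1)`, `m ≡ i mod n` -/
def phiSet (n : ℕ) (i : ZMod n) : Set ℝ :=
  {s | ∀ m : ℤ, (m : ZMod n) = i → s ∉ Set.Ioo (m : ℝ) (m + 1)}

theorem int_mem_phiSet (n : ℕ) (i : ZMod n) (k : ℤ) : (k : ℝ) ∈ phiSet n i := by
  intro m _ h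
  have h1 : m < k := by exact_mod_cast h.1
  have h2 : k < m + 1 := by exact_mod_cast h.2
  omega

theorem phiSet_shift (n : ℕ) (i : ZMod n) :
    phiSet n i = (fun s : ℝ => s + 1) '' phiSet n (i - 1) := by
  ext s
  constructor
  · intro hs
    refine ⟨s - 1, ?_, by ring⟩
    intro m hm h
    apply hs (m + 1) (by push_cast; rw [hm]; ring)
    constructor
    · have := h.1
      push_cast
      linarith
    · have := h.2
      push_cast
      linarith
  · rintro ⟨t, ht, rfl⟩ m hm h
    apply ht (m - 1) (by push_cast; rw [hm])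
    constructor
    · have := h.1
      push_cast
      linarith
    · have := h.2
      push_cast
      linarith

/-- the functions -/
def phiF (n : ℕ) (w₀ : ℝ) (i : ZMod n) (s : ℝ) : ℝ :=
  min 1 (Metric.infDist s (phiSet n i) / w₀)

theorem phiF_lower (n : ℕ) {w₀ : ℝ} (hw₀ : 0 < w₀) (s : ℝ) :
    1 - tent w₀ s ≤ phiF n w₀ ((⌊s⌋ : ℤ) : ZMod n) s := by
  have hne : (phiSet n ((⌊s⌋ : ℤ) : ZMod n)).Nonempty := ⟨_, int_mem_phiSet n _ 0⟩
  have hinf : |s - round s| ≤ Metric.infDist s (phiSet n ((⌊s⌋ : ℤ) : ZMod n)) := by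
    rw [Metric.le_infDist hne]
    intro y hy
    have h1 := hy ⌊s⌋ rfl
    rw [abs_sub_round_eq_min, Real.dist_eq]
    have h2 := Int.floor_le s
    have h3 := Int.lt_floor_add_one s
    have h4 : Int.fract s = s - ⌊s⌋ := rfl
    rw [h4]
    rw [Set.mem_Ioo, not_and_or, not_lt, not_lt] at h1
    rcases h1 with h1 | h1
    · refine (min_le_left _ _).trans ?_
      refine le_trans ?_ (le_abs_self _)
      linarith
    · refine (min_le_right _ _).trans ?_
      rw [abs_sub_comm]
      refine le_trans ?_ (le_abs_self _)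
      linarith
  rw [phiF, le_min_iff]
  have h5 : 1 - tent w₀ s ≤ |s - round s| / w₀ := by
    rw [tent]
    have := le_max_right 0 (1 - |s - round s| / w₀)
    linarith
  constructor
  · rw [tent]
    have := le_max_left 0 (1 - |s - round s| / w₀)
    linarith
  · exact h5.trans (div_le_div_of_nonneg_right hinf hw₀.le)

-- RC-24
theorem exists_phi (n : ℕ) [NeZero n] (w₀ : ℝ) (hw₀ : 0 < w₀) : ∃ φ : ZMod n → ℝ → ℝ,
    (∀ i s, 0 ≤ φ i s ∧ φ i s ≤ 1) ∧ (∀ i s t, |φ i s - φ i t| ≤ |s - t| / w₀) ∧
    (∀ i j, i ≠ j → ∀ s, φ i s * φ j s = 0) ∧ (∀ i s, φ i (s + 1) = φ (i - 1) s) ∧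
    (∀ s, 1 - ∑ i, φ i s ^ 2 ≤ 2 * tent w₀ s) := by
  have h01 : ∀ i s, 0 ≤ phiF n w₀ i s ∧ phiF n w₀ i s ≤ 1 := by
    intro i s
    refine ⟨le_min zero_le_one (div_nonneg Metric.infDist_nonneg hw₀.le), min_le_left _ _⟩
  refine ⟨phiF n w₀, h01, ?_, ?_, ?_, ?_⟩
  · intro i s t
    have h1 : |Metric.infDist s (phiSet n i) - Metric.infDist t (phiSet n i)| ≤ |s - t| := by
      have h2 := (Metric.lipschitz_infDist_pt (phiSet n i)).dist_le_mul s t
      rw [Real.dist_eq, Real.dist_eq] at h2
      simpa using h2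
    unfold phiF
    have h3 : ∀ a b c : ℝ, |min c a - min c b| ≤ |a - b| := fun a b c => by
      have := abs_min_sub_min_le_max c a c b
      rwa [sub_self, abs_zero, max_eq_right (abs_nonneg _)] at this
    refine (h3 _ _ _).trans ?_
    rw [← sub_div, abs_div, abs_of_pos hw₀]
    exact div_le_div_of_nonneg_right h1 hw₀.le
  · intro i j hij s
    by_cases hi : s ∈ phiSet n i
    · have : phiF n w₀ i s = 0 := by
        rw [phiF, Metric.infDist_zero_of_mem hi, zero_div]
        exact min_eq_right zero_le_one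
      rw [this, zero_mul]
    · have hj : s ∈ phiSet n j := by
        unfold phiSet at hi
        rw [Set.mem_ofPred_eq] at hi
        push Not at hi
        obtain ⟨m, hm, hs⟩ := hi
        intro m' hm' hs'
        apply hij
        have h1 : m = m' := by
          have h2 : (m : ℝ) < m' + 1 := hs.1.trans hs'.2
          have h3 : (m' : ℝ) < m + 1 := hs'.1.trans hs.2
          have h4 : m < m' + 1 := by exact_mod_cast h2
          have h5 : m' < m + 1 := by exact_mod_cast h3
          omega
        rw [← hm, ← hm', h1]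
      have : phiF n w₀ j s = 0 := by
        rw [phiF, Metric.infDist_zero_of_mem hj, zero_div]
        exact min_eq_right zero_le_one
      rw [this, mul_zero]
  · intro i s
    rw [phiF, phiF, phiSet_shift n i]
    have h1 : Isometry (fun s : ℝ => s + 1) := isometry_add_right 1
    have h2 := Metric.infDist_image h1 (x := s) (t := phiSet n (i - 1))
    rw [h2]
  · intro s
    have h1 := phiF_lower n hw₀ s
    have h2 : phiF n w₀ ((⌊s⌋ : ℤ) : ZMod n) s ^ 2 ≤ ∑ i, phiF n w₀ i s ^ 2 :=
      Finset.single_le_sum (fun i _ => sq_nonneg (phiF n w₀ i s)) (Finset.mem_univ _)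
    have h3 : tent w₀ s ≤ 1 := by
      rw [tent]
      refine max_le zero_le_one ?_
      have : 0 ≤ |s - round s| / w₀ := div_nonneg (abs_nonneg _) hw₀.le
      linarith
    have h4 : 0 ≤ tent w₀ s := le_max_left _ _
    nlinarith
end Pool.Agent.Helper61.RC
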