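import Pool.Agent.Helper61.RC.Base2

/-!
RC-23: the cocycle equation.
-/

open scoped ENNReal NNReal Topology CStarAlgebra ComplexOrder
open Filter

noncomputable section

namespace Pool.Agent.Helper61.RC

section
variable {X : Type*} [MetricSpace X] [CompactSpace X]

/-- the product of the first `k` factors -/
def thProd (h : X ≃ₜ X) (w : C(X, ℝ)) (k : ℕ) (x : X) : ℝ :=
  ∏ j ∈ Finset.range k, (1 - w ((h ^ (-(j : ℤ))) x))

theorem thProd_nonneg (h : X ≃ₜ X) {w : C(X, ℝ)} (hw : ∀ x, 0 ≤ w x ∧ w x ≤ 1) (k : ℕ) (x : X) :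
    0 ≤ thProd h w k x := Finset.prod_nonneg fun j _ => by linarith [(hw ((h ^ (-(j : ℤ))) x)).2]

theorem thProd_le_one (h : X ≃ₜ X) {w : C(X, ℝ)} (hw : ∀ x, 0 ≤ w x ∧ w x ≤ 1) (k : ℕ) (x : X) :
    thProd h w k x ≤ 1 := Finset.prod_le_one
  (fun j _ => by linarith [(hw ((h ^ (-(j : ℤ))) x)).2])
  (fun j _ => by linarith [(hw ((h ^ (-(j : ℤ))) x)).1])

theorem thProd_add (h : X ≃ₜ X) (w : C(X, ℝ)) (N k : ℕ) (x : X) :
    thProd h w (N + k) x = thProd h w N x * thProd h w k ((h ^ (-(N : ℤ))) x) := by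
  rw [thProd, Finset.prod_range_add]
  congr 1
  rw [thProd]
  refine Finset.prod_congr rfl fun j _ => ?_
  congr 2
  have h1 : h ^ (-((N + j : ℕ) : ℤ)) = h ^ (-(j : ℤ)) * h ^ (-(N : ℤ)) := by
    rw [← zpow_add]
    congr 1
    push_cast
    ring
  rw [h1]
  rfl

theorem thProd_half (h : X ≃ₜ X) {w : C(X, ℝ)} (hw : ∀ x, 0 ≤ w x ∧ w x ≤ 1) (N : ℕ)
    (hN : ∀ x, ∃ j : ℕ, j < N ∧ 1 / 2 ≤ w ((h ^ (-(j : ℤ))) x)) (x : X) :
    thProd h w N x ≤ 1 / 2 := by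
  obtain ⟨j, hj, hwj⟩ := hN x
  rw [thProd, ← Finset.mul_prod_erase _ _ (Finset.mem_range.2 hj)]
  have h1 : ∏ i ∈ (Finset.range N).erase j, (1 - w ((h ^ (-(i : ℤ))) x)) ≤ 1 :=
    Finset.prod_le_one (fun j _ => by linarith [(hw ((h ^ (-(j : ℤ))) x)).2])
      (fun j _ => by linarith [(hw ((h ^ (-(j : ℤ))) x)).1])
  have h2 : 0 ≤ 1 - w ((h ^ (-(j : ℤ))) x) := by linarith [(hw ((h ^ (-(j : ℤ))) x)).2]
  calc (1 - w ((h ^ (-(j : ℤ))) x)) * ∏ i ∈ (Finset.range N).erase j, (1 - w ((h ^ (-(i : ℤ))) x))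
      ≤ (1 - w ((h ^ (-(j : ℤ))) x)) * 1 := mul_le_mul_of_nonneg_left h1 h2
    _ ≤ 1 / 2 := by linarith

theorem thProd_geom (h : X ≃ₜ X) {w : C(X, ℝ)} (hw : ∀ x, 0 ≤ w x ∧ w x ≤ 1) (N : ℕ)
    (hN0 : 0 < N) (hN : ∀ x, ∃ j : ℕ, j < N ∧ 1 / 2 ≤ w ((h ^ (-(j : ℤ))) x)) {r : ℝ}
    (hr0 : 0 < r) (hr1 : r ≤ 1) (hrN : r ^ N = 1 / 2) : ∀ (k : ℕ) (x : X),
    thProd h w k x ≤ 2 * r ^ k := by
  intro k
  induction k using Nat.strong_induction_on with
  | _ k ih =>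
    intro x
    rcases Nat.lt_or_ge k N with hk | hk
    · refine (thProd_le_one h hw k x).trans ?_
      have h1 : r ^ N ≤ r ^ k := pow_le_pow_of_le_one hr0.le hr1 hk.le
      rw [hrN] at h1
      linarith
    · obtain ⟨m, rfl⟩ := Nat.exists_eq_add_of_le hk
      rw [thProd_add]
      have h1 := thProd_half h hw N hN x
      have h2 := ih m (by omega) ((h ^ (-(N : ℤ))) x)
      have h3 := thProd_nonneg h hw m ((h ^ (-(N : ℤ))) x)
      rw [pow_add, hrN]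
      nlinarith

-- RC-23
theorem exists_theta (h : X ≃ₜ X) (w : C(X, ℝ)) (hw : ∀ x, 0 ≤ w x ∧ w x ≤ 1) (N : ℕ)
    (hN : ∀ x, ∃ j : ℕ, j < N ∧ 1 / 2 ≤ w ((h ^ (-(j : ℤ))) x)) :
    ∃ θ : C(X, ℝ), ∀ x, θ (h x) = (1 - w (h x)) * (1 + θ x) := by
  rcases isEmpty_or_nonempty X with hX | hX
  · exact ⟨0, fun x => (hX.false x).elim⟩
  obtain ⟨x₀⟩ := hX
  have hN0 : 0 < N := by
    obtain ⟨j, hj, -⟩ := hN x₀
    omega
  set r : ℝ := (1 / 2 : ℝ) ^ ((N : ℝ)⁻¹) with hr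
  have hr0 : 0 < r := Real.rpow_pos_of_pos (by norm_num) _
  have hr1 : r < 1 := Real.rpow_lt_one (by norm_num) (by norm_num) (by positivity)
  have hrN : r ^ N = 1 / 2 := Real.rpow_inv_natCast_pow (by norm_num) hN0.ne'
  have hgeom := thProd_geom h hw N hN0 hN hr0 hr1.le hrN
  have hsum : Summable fun k : ℕ => 2 * r ^ (k + 1) :=
    ((summable_nat_add_iff 1).2 (summable_geometric_of_lt_one hr0.le hr1)).mul_left 2
  have hbd : ∀ (k : ℕ) (x : X), ‖thProd h w (k + 1) x‖ ≤ 2 * r ^ (k + 1) := by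
    intro k x
    rw [Real.norm_of_nonneg (thProd_nonneg h hw _ x)]
    exact hgeom (k + 1) x
  have hcont : Continuous fun x => ∑' k : ℕ, thProd h w (k + 1) x := by
    refine continuous_tsum (fun k => ?_) hsum hbd
    unfold thProd
    refine continuous_finsetProd _ fun j _ => ?_
    exact continuous_const.sub (w.continuous.comp (h ^ (-(j : ℤ))).continuous)
  have hsm : ∀ x, Summable fun k : ℕ => thProd h w (k + 1) x := fun x =>
    Summable.of_norm_bounded hsum (fun k => hbd k x)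
  refine ⟨⟨_, hcont⟩, fun x => ?_⟩
  show ∑' k : ℕ, thProd h w (k + 1) (h x) = (1 - w (h x)) * (1 + ∑' k : ℕ, thProd h w (k + 1) x)
  have hstep : ∀ k : ℕ, thProd h w (k + 1) (h x) = (1 - w (h x)) * thProd h w k x := by
    intro k
    rw [thProd, Finset.prod_range_succ']
    have h1 : (h ^ (-((0 : ℕ) : ℤ))) (h x) = h x := by simp
    rw [h1, mul_comm, thProd]
    congr 1
    refine Finset.prod_congr rfl fun j _ => ?_
    congr 2
    have h2 : h ^ (-(j : ℤ)) = h ^ (-((j + 1 : ℕ) : ℤ)) * h := by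
      rw [← zpow_add_one]
      congr 1
      push_cast
      ring
    rw [h2]
    rfl
  rw [tsum_congr hstep, tsum_mul_left]
  congr 1
  have hs0 : Summable fun k : ℕ => thProd h w k x := (summable_nat_add_iff 1).1 (hsm x)
  rw [hs0.tsum_eq_zero_add]
  congr 1

end

end Pool.Agent.Helper61.RC
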